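import Pool.Agent.Work.DiscTower.Final

/-!
# The conjectured lower bound `(log N)^(k-1)` for the box discrepancy is false for every `k ≥ 3`

For every `k ≥ 3` and `N ≥ 3` there are `N` points in `[0,1)^k` whose discrepancy with respect to
all anchored boxes `[0, α]` is at most `C_k (log N / log log N)^(k-1)`.
-/

open Finset

namespace Pool.Agent.Results.MP_d500f7_co.ConjectureFalse

/-- For every `k ≥ 3`: first, `Δ_k(N) ≤ C (log N / log log N) ^ (k - 1)` for all `N ≥ 3`; second,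
there is no `c > 0` such that every configuration of `N ≥ 2` points has an anchored box of
discrepancy at least `c (log N) ^ (k - 1)`. -/
theorem result : ∀ k : ℕ, 3 ≤ k →
    (∃ C : ℝ, 0 < C ∧ ∀ N : ℕ, 3 ≤ N →
      ∃ u : Fin N → Fin k → ℝ, (∀ i s, 0 ≤ u i s ∧ u i s < 1) ∧
        ∀ α : Fin k → ℝ, (∀ s, 0 ≤ α s ∧ α s < 1) →
          |((univ.filter (fun i : Fin N => ∀ s, u i s ≤ α s)).card : ℝ) - N * ∏ s, α s| ≤
            C * (Real.log N / Real.log (Real.log N)) ^ (k - 1)) ∧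
    ¬ ∃ c : ℝ, 0 < c ∧ ∀ N : ℕ, 2 ≤ N →
      ∀ u : Fin N → Fin k → ℝ, (∀ i s, 0 ≤ u i s ∧ u i s < 1) →
        ∃ α : Fin k → ℝ, (∀ s, 0 ≤ α s ∧ α s < 1) ∧
          c * (Real.log N) ^ (k - 1) ≤
            |((univ.filter (fun i : Fin N => ∀ s, u i s ≤ α s)).card : ℝ) - N * ∏ s, α s| :=
  fun k hk => ⟨DiscTower.upper k hk, DiscTower.conj_false k hk⟩

end Pool.Agent.Results.MP_d500f7_co.ConjectureFalse
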