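import Pool.Agent.Work.MP_d500f7_co.K.Last

/-!
# A lower bound for the sup-norm discrepancy in every dimension

For every `k ≥ 4`, every `N ≥ 2` points in `[0,1)^k` have an anchored box `[0, α]` whose
discrepancy is at least `c_k (log N) ^ ((k - 1) / 2 + 1 / (2 k))`.
-/

open Finset

namespace Pool.Agent.Results.MP_d500f7_co.ExplicitExponents

/-- `Δ_k(N) ≥ c_k (log N) ^ ((k - 1) / 2 + 1 / (2 k))` for all `k ≥ 4` and `N ≥ 2`. -/
theorem result : ∀ k : ℕ, 4 ≤ k → ∃ c : ℝ, 0 < c ∧ ∀ N : ℕ, 2 ≤ N →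
    ∀ u : Fin N → Fin k → ℝ, (∀ i d, 0 ≤ u i d ∧ u i d < 1) →
    ∃ α : Fin k → ℝ, (∀ d, 0 ≤ α d ∧ α d < 1) ∧
      c * (Real.log N) ^ (((k : ℝ) - 1) / 2 + 1 / (2 * k)) ≤
        |((univ.filter (fun i : Fin N => ∀ d, u i d ≤ α d)).card : ℝ) - N * ∏ d, α d| :=
  fun k hk => DK.main k (by omega)

end Pool.Agent.Results.MP_d500f7_co.ExplicitExponents
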