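import Pool.Agent.Work.DiscPS.Fin

/-!
# A power saving for the three-dimensional box discrepancy

`Δ_3(N) ≤ C (log N)^(2 - 1/70)`.
-/

open Finset

namespace Pool.Agent.Results.MP_d500f7_co.PowerSaving

/-- `Δ_3(N) ≤ C (log N) ^ (2 - 1 / 70)` for all `N ≥ 3`. -/
theorem result : ∃ C : ℝ, 0 < C ∧ ∀ N : ℕ, 3 ≤ N →
    ∃ u : Fin N → Fin 3 → ℝ, (∀ i s, 0 ≤ u i s ∧ u i s < 1) ∧
      ∀ α : Fin 3 → ℝ, (∀ s, 0 ≤ α s ∧ α s < 1) →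
        |((univ.filter (fun i : Fin N => ∀ s, u i s ≤ α s)).card : ℝ) - N * ∏ s, α s| ≤
          C * (Real.log N) ^ (2 - 1 / 70 : ℝ) :=
  DiscPS.upper3

end Pool.Agent.Results.MP_d500f7_co.PowerSaving
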