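import Pool.Agent.Work.Disc32.Numerics

/-!
# A lower bound for the sup-norm discrepancy in dimension three

Every `N` points in `[0,1)^3` have an anchored box `[0, α]` whose discrepancy is at least
`c (log N / log log N) ^ (3/2)`.
-/

open Finset

namespace Pool.Agent.Results.MP_d500f7_co.ThreeHalves

/-- `Δ_3(N) ≥ c (log N / log log N) ^ (3/2)` for all `N ≥ 3`. -/
theorem result : ∃ c : ℝ, 0 < c ∧ ∀ N : ℕ, 3 ≤ N → ∀ u : Fin N → Fin 3 → ℝ,
    (∀ i k, 0 ≤ u i k ∧ u i k < 1) → ∃ α : Fin 3 → ℝ, (∀ k, 0 ≤ α k ∧ α k < 1) ∧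
      c * (Real.log N / Real.log (Real.log N)) ^ (3 / 2 : ℝ) ≤
        |((univ.filter (fun i : Fin N => ∀ k, u i k ≤ α k)).card : ℝ) - N * ∏ k, α k| :=
  Disc32.final

end Pool.Agent.Results.MP_d500f7_co.ThreeHalves
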